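import Mathlib

/-!
# Semisimple quantum cohomology and full exceptional collections

The data and their known properties.
-/

set_option autoImplicit false

namespace Pool.Agent.L0h15.DB

/-- the data -/
structure Data where
  /-- the connected smooth complex projective varieties -/
  Var : Type
  /-- the dimension -/
  dim : Var → ℕ
  /-- the big quantum cohomology is semisimple (at a general point) -/
  Semisimple : Var → Prop
  /-- the derived category has a full exceptional collection -/
  Exceptional : Var → Prop
  /-- there are `p ≠ q` with `H^{p,q}(X)` not zero -/
  OffDiagonal : Var → Prop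
  /-- there is torsion in the topological K-group `K^0(X)` -/
  Torsion : Var → Prop
  /-- rational varieties -/
  Rational : Var → Prop
  /-- toric varieties -/
  Toric : Var → Prop
  /-- smooth connected closed subvarieties of codimension at least two -/
  Sub : Var → Type
  /-- the subvariety as a variety -/
  center : ∀ X, Sub X → Var
  /-- the blow-up -/
  bl : ∀ X, Sub X → Var
  /-- vector bundles of positive rank -/
  Bun : Var → Type
  /-- the projective bundle -/
  proj : ∀ X, Bun X → Var
  /-- the product -/
  prod : Var → Var → Var

namespace Data

variable (D : Data)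

/-- Question Q1 for `X` (if `X` is a Fano variety) -/
def Question (X : D.Var) : Prop := D.Semisimple X ↔ D.Exceptional X

/-- an obstruction against full exceptional collections -/
def Obstructed (X : D.Var) : Prop := D.OffDiagonal X ∨ D.Torsion X

/-- known theorems on quantum cohomology -/
structure Quantum : Prop where
  /-- Hertling, Manin and Teleman -/
  hmt : ∀ X, D.Semisimple X → ¬ D.OffDiagonal X
  /-- Iritani's decomposition for blow-ups -/
  blow : ∀ X Z, D.Semisimple (D.bl X Z) ↔ D.Semisimple X ∧ D.Semisimple (D.center X Z)
  /-- the decomposition of Iritani and Koto for projective bundles -/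
  bundle : ∀ X V, D.Semisimple (D.proj X V) ↔ D.Semisimple X
  /-- the product formula of Behrend, Kaufmann -/
  prod : ∀ X Y, D.Semisimple X → D.Semisimple Y → D.Semisimple (D.prod X Y)
  /-- Iritani -/
  toric : ∀ X, D.Toric X → D.Semisimple X
  line : ∀ X, D.dim X ≤ 1 → D.Rational X → D.Semisimple X
  /-- Bayer; rational surfaces are toric surfaces blown up in points -/
  surface : ∀ X, D.dim X = 2 → D.Rational X → D.Semisimple X
  /-- if the canonical class of a surface is nef then the quantum product is the cup product; for
  the blow-ups see above; the other surfaces are ruled -/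
  nonrational : ∀ X, D.dim X = 2 → ¬ D.Rational X → ¬ D.Semisimple X

/-- known theorems on derived categories and cohomology -/
structure Derived : Prop where
  /-- Hochschild homology and K-theory of a category with a full exceptional collection -/
  obstruction : ∀ X, D.Obstructed X → ¬ D.Exceptional X
  /-- Orlov -/
  blow : ∀ X Z, D.Exceptional X → D.Exceptional (D.center X Z) → D.Exceptional (D.bl X Z)
  /-- Orlov -/
  bundle : ∀ X V, D.Exceptional X → D.Exceptional (D.proj X V)
  prod : ∀ X Y, D.Exceptional X → D.Exceptional Y → D.Exceptional (D.prod X Y)
  /-- Kawamata -/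
  toric : ∀ X, D.Toric X → D.Exceptional X
  line : ∀ X, D.dim X ≤ 1 → D.Rational X → D.Exceptional X
  surface : ∀ X, D.dim X = 2 → D.Rational X → D.Exceptional X
  /-- curves of positive genus -/
  curve : ∀ X, D.dim X ≤ 1 → ¬ D.Rational X → D.OffDiagonal X
  blow_obs : ∀ X Z, D.Obstructed X ∨ D.Obstructed (D.center X Z) → D.Obstructed (D.bl X Z)
  bundle_obs : ∀ X V, D.Obstructed X → D.Obstructed (D.proj X V)
  /-- Künneth formula -/
  prod_off : ∀ X Y, D.OffDiagonal X ∨ D.OffDiagonal Y → D.OffDiagonal (D.prod X Y)

/-- The varieties `X` such that either both conditions of Q1 hold, or the quantum cohomology is not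
semisimple and there is an obstruction. -/
def Settled (X : D.Var) : Prop :=
  (D.Semisimple X ∧ D.Exceptional X) ∨ (¬ D.Semisimple X ∧ D.Obstructed X)

/-- the smallest class which contains the varieties which satisfy both conditions, the varieties of
dimension at most one, the toric varieties, the rational surfaces, the surfaces with an obstruction, and
the varieties with `H^{p,q}(X)` not zero for some `p ≠ q`, and which contains the blow-up of a member in a
member and the projective bundles over members -/
inductive Class : D.Var → Prop
  | both (X : D.Var) (h : D.Semisimple X) (h' : D.Exceptional X) : Class X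
  | curve (X : D.Var) (h : D.dim X ≤ 1) : Class X
  | toric (X : D.Var) (h : D.Toric X) : Class X
  | surface (X : D.Var) (h : D.dim X = 2) (h' : D.Rational X ∨ D.Obstructed X) : Class X
  | off (X : D.Var) (h : D.OffDiagonal X) : Class X
  | blow (X : D.Var) (Z : D.Sub X) (h : Class X) (h' : Class (D.center X Z)) : Class (D.bl X Z)
  | bundle (X : D.Var) (V : D.Bun X) (h : Class X) : Class (D.proj X V)

/-- `X` and `Y` are members of the class without torsion in the topological K-group -/
def ProductClass (X Y : D.Var) : Prop :=
  D.Class X ∧ D.Class Y ∧ ¬ D.Torsion X ∧ ¬ D.Torsion Y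

end Data

end Pool.Agent.L0h15.DB
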