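import Pool.Agent.L0h15.DB.Ax

/-!
# Closure properties
-/

set_option autoImplicit false

namespace Pool.Agent.L0h15.DB

namespace Data

variable {D : Data}

theorem settled_off (hQ : D.Quantum) {X : D.Var} (h : D.OffDiagonal X) : D.Settled X :=
  Or.inr ⟨fun hs => hQ.hmt X hs h, Or.inl h⟩

theorem settled_of_class (hQ : D.Quantum) (hD : D.Derived) {X : D.Var} (h : D.Class X) :
    D.Settled X := by
  induction h with
  | both X h h' => exact Or.inl ⟨h, h'⟩
  | curve X h =>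
    by_cases hr : D.Rational X
    · exact Or.inl ⟨hQ.line X h hr, hD.line X h hr⟩
    · exact settled_off hQ (hD.curve X h hr)
  | toric X h => exact Or.inl ⟨hQ.toric X h, hD.toric X h⟩
  | surface X h h' =>
    by_cases hr : D.Rational X
    · exact Or.inl ⟨hQ.surface X h hr, hD.surface X h hr⟩
    · exact Or.inr ⟨hQ.nonrational X h hr, h'.resolve_left hr⟩
  | off X h => exact settled_off hQ h
  | blow X Z _ _ ih ih' =>
    rcases ih with ⟨h1, h2⟩ | ⟨h1, h2⟩
    · rcases ih' with ⟨h3, h4⟩ | ⟨h3, h4⟩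
      · exact Or.inl ⟨(hQ.blow X Z).2 ⟨h1, h3⟩, hD.blow X Z h2 h4⟩
      · exact Or.inr ⟨fun h => h3 ((hQ.blow X Z).1 h).2, hD.blow_obs X Z (Or.inr h4)⟩
    · exact Or.inr ⟨fun h => h1 ((hQ.blow X Z).1 h).1, hD.blow_obs X Z (Or.inl h2)⟩
  | bundle X V _ ih =>
    rcases ih with ⟨h1, h2⟩ | ⟨h1, h2⟩
    · exact Or.inl ⟨(hQ.bundle X V).2 h1, hD.bundle X V h2⟩
    · exact Or.inr ⟨fun h => h1 ((hQ.bundle X V).1 h), hD.bundle_obs X V h2⟩

theorem question_of_settled (hD : D.Derived) {X : D.Var} (h : D.Settled X) : D.Question X := by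
  rcases h with ⟨h1, h2⟩ | ⟨h1, h2⟩
  · exact ⟨fun _ => h2, fun _ => h1⟩
  · exact ⟨fun h => absurd h h1, fun h => absurd h (hD.obstruction X h2)⟩

theorem settled_prod (hQ : D.Quantum) (hD : D.Derived) {X Y : D.Var} (h : D.ProductClass X Y) :
    D.Settled (D.prod X Y) := by
  obtain ⟨hX, hY, tX, tY⟩ := h
  rcases settled_of_class hQ hD hX with ⟨h1, h2⟩ | ⟨_, h2⟩
  · rcases settled_of_class hQ hD hY with ⟨h3, h4⟩ | ⟨_, h4⟩
    · exact Or.inl ⟨hQ.prod X Y h1 h3, hD.prod X Y h2 h4⟩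
    · exact settled_off hQ (hD.prod_off X Y (Or.inr (h4.resolve_right tY)))
  · exact settled_off hQ (hD.prod_off X Y (Or.inl (h2.resolve_right tX)))

end Data

end Pool.Agent.L0h15.DB
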